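import Mathlib
import Pool.Agent.H410R3.DG.SS

/-!
# Diffeomorphisms conjugate to a structurally stable one are classified by a Borel function
with values in the natural numbers

`M` is a closed manifold.  Structural stability is considered for the `C^k` topology, for every
`k`; the case of the problem is `k = 1`.  There is a Borel function `c` on the space `C(M, M)` of
all continuous self-maps with values in `ℕ` such that `c f ≠ 0` exactly when `f` is topologically
conjugate to a `C^k` structurally stable diffeomorphism of class `C^r`, and such that two maps of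
this kind are topologically conjugate exactly when `c` takes the same value at them.  So the set of
the maps of this kind is Borel, in `C(M, M)` and in every `Diff^s(M)`, and topological conjugacy is a
Borel relation with countably many classes on it.
-/

open Set Filter Topology MeasureTheory
open scoped Manifold ContDiff
open Pool.Agent.H410R3.KS Pool.Agent.H410R3.DG

namespace Pool.Agent.Results.MP_c32980_lc.StableClasses

section Definitions

/-- A `C^k` diffeomorphism `f` of `M` is `C^k` structurally stable if it has a neighbourhood `U` in the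
`C^k` topology such that every `C^k` diffeomorphism `g ∈ U` is topologically conjugate to `f`. -/
def StableIn {E H : Type} [NormedAddCommGroup E] [NormedSpace ℝ E] [FiniteDimensional ℝ E]
    [TopologicalSpace H] {I : ModelWithCorners ℝ E H} {M : Type} [TopologicalSpace M]
    [ChartedSpace H M] {k : ℕ∞} (f : DiffR I M k) : Prop :=
  ∃ U : Set (DiffR I M k), IsOpen[crTopology I M k] U ∧ f ∈ U ∧ ∀ g ∈ U, TopConj g.map f.map

variable {E H : Type} [NormedAddCommGroup E] [NormedSpace ℝ E] [FiniteDimensional ℝ E]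
  [TopologicalSpace H] (I : ModelWithCorners ℝ E H) (M : Type) [TopologicalSpace M]
  [ChartedSpace H M] {k r : ℕ∞} (hk : k ≤ r)

/-- The continuous self-maps of `M` which are topologically conjugate to a `C^r` diffeomorphism that
is `C^k` structurally stable, where `k ≤ r`. -/
def stabMaps : Set C(M, M) :=
  {f | ∃ g : DiffR I M r, StableIn (weaken hk g) ∧ TopConj f g.map}

/-- The `C^s` diffeomorphisms of `M` which are topologically conjugate to a `C^r` diffeomorphism that
is `C^k` structurally stable, where `k ≤ r`. -/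
def stabDiffs (s : ℕ∞) : Set (DiffR I M s) :=
  {f | ∃ g : DiffR I M r, StableIn (weaken hk g) ∧ TopConj f.map g.map}

/-- There is a Borel function `c : C(M, M) → ℕ` which is nonzero exactly on `stabMaps`, and which
takes the same value at two maps of this set exactly when they are topologically conjugate. -/
def ClassifiedByNat : Prop :=
  ∃ c : C(M, M) → ℕ, (∀ n, MeasurableSet[borel C(M, M)] {f | c f = n}) ∧
    (∀ f, c f ≠ 0 ↔ f ∈ stabMaps I M hk) ∧
    ∀ f ∈ stabMaps I M hk, ∀ f' ∈ stabMaps I M hk, (TopConj f f' ↔ c f = c f')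

/-- `stabDiffs` is a Borel subset of `Diff^s(M)` with the `C^s` topology. -/
def BorelDiffs (s : ℕ∞) : Prop :=
  @MeasurableSet (DiffR I M s) (@borel _ (crTopology I M s)) (stabDiffs I M hk s)

/-- Topological conjugacy of elements of `stabDiffs` is a Borel subset of `Diff^s(M) × Diff^s(M)`. -/
def BorelConj (s : ℕ∞) : Prop :=
  @MeasurableSet (DiffR I M s × DiffR I M s)
    (@borel _ (@instTopologicalSpaceProd _ _ (crTopology I M s) (crTopology I M s)))
    {p | p.1 ∈ stabDiffs I M hk s ∧ p.2 ∈ stabDiffs I M hk s ∧ TopConj p.1.map p.2.map}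

end Definitions

section

variable {E : Type} [NormedAddCommGroup E] [NormedSpace ℝ E] [FiniteDimensional ℝ E]
  {M : Type} [TopologicalSpace M] [ChartedSpace E M]

theorem conj_class_CM [IsManifold 𝓘(ℝ, E) ∞ M] [CompactSpace M] [T2Space M] (g : C(M, M)) :
    MeasurableSet[borel C(M, M)] {f : C(M, M) | TopConj f g} := by
  have _ : SecondCountableTopology M := ChartedSpace.secondCountable_of_sigmaCompact E M
  have e : {f : C(M, M) | TopConj f g} = {f : C(M, M) | ∃ h : M ≃ₜ M, ∀ x, h (g x) = f (h x)} := by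
    ext f
    exact ⟨fun h => TopConj.symm' h, fun h => TopConj.symm' (h : TopConj g f)⟩
  rw [e]
  exact conj_class_borel g

theorem classes [IsManifold 𝓘(ℝ, E) ∞ M] [CompactSpace M] [T2Space M] {k r : ℕ∞} (hk : k ≤ r) :
    ∃ c : C(M, M) → ℕ, (∀ n, MeasurableSet[borel C(M, M)] {f | c f = n}) ∧
      (∀ f : C(M, M), c f ≠ 0 ↔ ∃ g : DiffR 𝓘(ℝ, E) M r, StableIn (weaken hk g) ∧
        TopConj f g.map) ∧
      ∀ f f' : C(M, M), c f ≠ 0 → (TopConj f f' ↔ c f = c f') := by
  classical
  have hsc := secondCountable_cr (E := E) (M := M) k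
  obtain ⟨B, hBc, -, hB⟩ := @TopologicalSpace.exists_countable_basis _ (crTopology 𝓘(ℝ, E) M k) hsc
  let B' : Set (Set (DiffR 𝓘(ℝ, E) M k)) := {b ∈ B | ∃ g : DiffR 𝓘(ℝ, E) M r,
    StableIn (weaken hk g) ∧ weaken hk g ∈ b ∧ ∀ g' ∈ b, TopConj g'.map g.map}
  have hB'c : B'.Countable := hBc.mono fun b hb => hb.1
  have hch : ∀ b : B', ∃ g : DiffR 𝓘(ℝ, E) M r,
    StableIn (weaken hk g) ∧ weaken hk g ∈ b.1 ∧ ∀ g' ∈ b.1, TopConj g'.map g.map :=
    fun b => b.2.2
  choose G hG1 hG2 hG3 using hch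
  have _ : Countable B' := hB'c.to_subtype
  obtain ⟨e, he⟩ := exists_injective_nat B'
  let P : ℕ → C(M, M) → Prop := fun n f => ∃ b : B', e b = n ∧ TopConj f (G b).map
  have hPm : ∀ n, MeasurableSet[borel C(M, M)] {f : C(M, M) | P n f} := by
    intro n
    by_cases hn : ∃ b, e b = n
    · obtain ⟨b, rfl⟩ := hn
      have e1 : {f | P (e b) f} = {f : C(M, M) | TopConj f (⟨(G b).map,
          Diffeomorph.continuous (G b)⟩ : C(M, M))} := by
        ext f
        constructor
        · rintro ⟨b', h1, h2⟩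
          rw [he h1] at h2
          exact h2
        · intro h
          exact ⟨b, rfl, h⟩
      rw [e1]
      exact conj_class_CM (E := E) _
    · have e1 : {f : C(M, M) | P n f} = ∅ := by
        ext f
        simp only [mem_ofPred_eq, mem_empty_iff_false, iff_false]
        rintro ⟨b, hb, -⟩
        exact hn ⟨b, hb⟩
      rw [e1]
      exact @MeasurableSet.empty _ (borel C(M, M))
  have hPc : ∀ (n : ℕ) (f f' : C(M, M)), TopConj f f' → P n f' → P n f := by
    rintro n f f' h ⟨b, h1, h2⟩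
    exact ⟨b, h1, TopConj.trans' h h2⟩
  have hPd : ∀ (n : ℕ) (f f' : C(M, M)), P n f → P n f' → TopConj f f' := by
    rintro n f f' ⟨b, h1, h2⟩ ⟨b', h1', h2'⟩
    have h3 : b = b' := he (h1.trans h1'.symm)
    subst h3
    exact TopConj.trans' h2 (TopConj.symm' h2')
  let c : C(M, M) → ℕ := fun f => if h : ∃ n, P n f then Nat.find h + 1 else 0
  have c0 : ∀ f, c f = 0 ↔ ∀ n, ¬ P n f := by
    intro f
    by_cases h : ∃ n, P n f
    · simp only [c, h, dif_pos]
      constructor
      · intro h0; omega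
      · intro h0
        obtain ⟨n, hn⟩ := h
        exact absurd hn (h0 n)
    · simp only [c, h, dif_neg, not_false_eq_true, true_iff]
      exact fun n hn => h ⟨n, hn⟩
  have c1 : ∀ f n, c f = n + 1 ↔ P n f ∧ ∀ m < n, ¬ P m f := by
    intro f n
    by_cases h : ∃ n, P n f
    · simp only [c, h, dif_pos, Nat.add_right_cancel_iff]
      exact Nat.find_eq_iff h
    · simp only [c, h, dif_neg, not_false_eq_true]
      constructor
      · intro h0; omega
      · rintro ⟨h1, -⟩
        exact absurd ⟨n, h1⟩ h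
  refine ⟨c, ?_, ?_, ?_⟩
  · intro n
    cases n with
    | zero =>
      have e1 : {f | c f = 0} = ⋂ n, {f | P n f}ᶜ := by
        ext f
        simp only [mem_ofPred_eq, c0, mem_iInter, mem_compl_iff]
      rw [e1]
      exact @MeasurableSet.iInter _ _ (borel C(M, M)) _ _ fun n => (hPm n).compl
    | succ n =>
      have e1 : {f | c f = n + 1} = {f | P n f} ∩ ⋂ m, ⋂ _ : m < n, {f | P m f}ᶜ := by
        ext f
        simp only [mem_ofPred_eq, c1, mem_iInter, mem_compl_iff, mem_inter_iff]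
      rw [e1]
      refine MeasurableSet.inter (hPm n) ?_
      exact @MeasurableSet.iInter _ _ (borel C(M, M)) _ _ fun m =>
        @MeasurableSet.iInter _ _ (borel C(M, M)) _ _ fun _ => (hPm m).compl
  · intro f
    rw [Ne, c0]
    push Not
    constructor
    · rintro ⟨n, b, -, h⟩
      exact ⟨G b, hG1 b, h⟩
    · rintro ⟨g, hg, hfg⟩
      obtain ⟨U, hU, hgU, hUc⟩ := hg
      obtain ⟨b, hb, hgb, hbU⟩ := @TopologicalSpace.IsTopologicalBasis.exists_subset_of_mem_open _
        (crTopology 𝓘(ℝ, E) M k) B hB _ U hgU hU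
      have hb' : b ∈ B' := ⟨hb, g, ⟨U, hU, hgU, hUc⟩, hgb, fun g' hg' => hUc g' (hbU hg')⟩
      have h1 : TopConj g.map (G ⟨b, hb'⟩).map := hG3 ⟨b, hb'⟩ _ hgb
      exact ⟨e ⟨b, hb'⟩, ⟨b, hb'⟩, rfl, TopConj.trans' hfg h1⟩
  · intro f f' hf
    obtain ⟨n, hn⟩ := Nat.exists_eq_succ_of_ne_zero hf
    have h1 := (c1 f n).1 hn
    constructor
    · intro h
      rw [hn]
      refine ((c1 f' n).2 ⟨hPc n _ _ (TopConj.symm' h) h1.1, fun m hm h2 => h1.2 m hm ?_⟩).symm
      exact hPc m _ _ h h2
    · intro h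
      have h2 := (c1 f' n).1 (h ▸ hn)
      exact hPd n f f' h1.1 h2.1

theorem incl_meas [IsManifold 𝓘(ℝ, E) ∞ M] [CompactSpace M] [T2Space M] (s : ℕ∞) :
    @Measurable _ _ (@borel _ (crTopology 𝓘(ℝ, E) M s)) (borel C(M, M))
      (fun f : DiffR 𝓘(ℝ, E) M s => (⟨f.map, Diffeomorph.continuous f⟩ : C(M, M))) := by
  let _ := crTopology 𝓘(ℝ, E) M s
  have _ : SecondCountableTopology M := ChartedSpace.secondCountable_of_sigmaCompact E M
  have hev := continuous_eval_of_le (E := E) (M := M) (r := s) le_rfl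
  have hι : Continuous (fun f : DiffR 𝓘(ℝ, E) M s => (⟨f.map, Diffeomorph.continuous f⟩ : C(M, M))) :=
    ContinuousMap.continuous_of_continuous_uncurry _ hev
  exact hι.borel_measurable

theorem main [IsManifold 𝓘(ℝ, E) ∞ M] [CompactSpace M] [T2Space M] {k r : ℕ∞} (hk : k ≤ r) :
    ClassifiedByNat 𝓘(ℝ, E) M hk ∧ ∀ s : ℕ∞,
      BorelDiffs 𝓘(ℝ, E) M hk s ∧ BorelConj 𝓘(ℝ, E) M hk s := by
  obtain ⟨c, h1, h2, h3⟩ := classes (E := E) (M := M) hk
  refine ⟨⟨c, h1, h2, fun f hf f' _ => h3 f f' ((h2 f).2 hf)⟩, fun s => ?_⟩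
  let j : DiffR 𝓘(ℝ, E) M s → C(M, M) := fun f => ⟨f.map, Diffeomorph.continuous f⟩
  have hj : @Measurable _ _ (@borel _ (crTopology 𝓘(ℝ, E) M s)) (borel C(M, M)) j := incl_meas s
  have hjn : ∀ n, @MeasurableSet (DiffR 𝓘(ℝ, E) M s) (@borel _ (crTopology 𝓘(ℝ, E) M s))
      {f | c (j f) = n} := fun n => hj (h1 n)
  have hS : ∀ f : DiffR 𝓘(ℝ, E) M s, f ∈ stabDiffs 𝓘(ℝ, E) M hk s ↔ c (j f) ≠ 0 :=
    fun f => (h2 (j f)).symm
  constructor
  · have e1 : stabDiffs 𝓘(ℝ, E) M hk s = {f | c (j f) = 0}ᶜ := by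
      ext f
      rw [hS]
      rfl
    show @MeasurableSet (DiffR 𝓘(ℝ, E) M s) (@borel _ (crTopology 𝓘(ℝ, E) M s))
      (stabDiffs 𝓘(ℝ, E) M hk s)
    rw [e1]
    exact (hjn 0).compl
  · let _ := crTopology 𝓘(ℝ, E) M s
    have e1 : {p : DiffR 𝓘(ℝ, E) M s × DiffR 𝓘(ℝ, E) M s | p.1 ∈ stabDiffs 𝓘(ℝ, E) M hk s ∧
        p.2 ∈ stabDiffs 𝓘(ℝ, E) M hk s ∧ TopConj p.1.map p.2.map} =
        ⋃ n : ℕ, (Prod.fst ⁻¹' {f | c (j f) = n + 1} ∩ Prod.snd ⁻¹' {f | c (j f) = n + 1}) := by
      ext p
      simp only [mem_ofPred_eq, mem_iUnion, mem_inter_iff, mem_preimage]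
      constructor
      · rintro ⟨a, -, b⟩
        obtain ⟨n, hn⟩ := Nat.exists_eq_succ_of_ne_zero ((hS _).1 a)
        have := (h3 (j p.1) (j p.2) ((hS _).1 a)).1 b
        exact ⟨n, hn, this ▸ hn⟩
      · rintro ⟨n, a, b⟩
        have ha : c (j p.1) ≠ 0 := by rw [a]; exact Nat.succ_ne_zero n
        have hb : c (j p.2) ≠ 0 := by rw [b]; exact Nat.succ_ne_zero n
        exact ⟨(hS _).2 ha, (hS _).2 hb, (h3 (j p.1) (j p.2) ha).2 (a.trans b.symm)⟩
    show @MeasurableSet (DiffR 𝓘(ℝ, E) M s × DiffR 𝓘(ℝ, E) M s) (borel _) _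
    rw [e1]
    have m1 : @Measurable _ _ (borel (DiffR 𝓘(ℝ, E) M s × DiffR 𝓘(ℝ, E) M s))
        (borel (DiffR 𝓘(ℝ, E) M s)) Prod.fst := continuous_fst.borel_measurable
    have m2 : @Measurable _ _ (borel (DiffR 𝓘(ℝ, E) M s × DiffR 𝓘(ℝ, E) M s))
        (borel (DiffR 𝓘(ℝ, E) M s)) Prod.snd := continuous_snd.borel_measurable
    exact @MeasurableSet.iUnion _ _ (borel _) _ _ fun n =>
      MeasurableSet.inter (m1 (hjn (n + 1))) (m2 (hjn (n + 1)))

end

/-- Let `M` be a closed manifold of any dimension `n` and let `k ≤ r` (the case of the problem is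
`k = 1` and `r = ∞`).  There is a Borel function `c : C(M, M) → ℕ` such that `c f ≠ 0` if and only if
`f` is topologically conjugate to a `C^k` structurally stable diffeomorphism of class `C^r`, and two
such maps are topologically conjugate if and only if `c` takes the same value at them.  For every `s`
the set of the `C^s` diffeomorphisms of this kind is Borel, and so is topological conjugacy on it. -/
theorem result (n : ℕ) (M : Type) [TopologicalSpace M] [ChartedSpace (EuclideanSpace ℝ (Fin n)) M]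
    [IsManifold (𝓡 n) ∞ M] [CompactSpace M] [T2Space M] (k r : ℕ∞) (hk : k ≤ r) :
    ClassifiedByNat (𝓡 n) M hk ∧
      ∀ s : ℕ∞, BorelDiffs (𝓡 n) M hk s ∧ BorelConj (𝓡 n) M hk s :=
  main hk

end Pool.Agent.Results.MP_c32980_lc.StableClasses
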